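import Pool.Agent.H889R3.SA.All

/-!
# The Aaronson-Ambainis inequality for the noise stable part of the variance

For a function `f : {-1,1}^n → [-1,1]` of degree at most `d` and `0 < δ ≤ 1/2` let
`σ = ∑_{S ≠ ∅} (1 - δ)^|S| f̂(S)²` be the part of the variance that survives noise of rate `δ`.
Then some variable has influence at least `(σ / (4 d)) ^ (C log (1 / δ))`, with an absolute
constant `C`.  For constant `δ` this is polynomial in `σ` and `1 / d`.

The proof reveals `m` out of `n'` coordinates one by one in random order, where `n'` is much larger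
than `n` (most of them are dummies), and controls the growth of the squared probabilities that a
coordinate is sensitive by the potential argument of the quasi-polynomial theorem.
-/

set_option autoImplicit false

namespace Pool.Agent.Results.MP_cf5f8b_an.NoiseStable

theorem result : ∃ C : ℝ, 0 < C ∧ ∀ (n : ℕ) (f : (Fin n → ℤˣ) → ℝ), (∀ x, |f x| ≤ 1) →
    ∀ d : ℕ, 1 ≤ d →
      (∀ S : Finset (Fin n), d < S.card →
        ∑ x : Fin n → ℤˣ, f x * ∏ i ∈ S, ((x i : ℤ) : ℝ) = 0) →
    ∀ δ : ℝ, 0 < δ → δ ≤ 1 / 2 → ∀ σ : ℝ,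
      σ = ∑ S ∈ Finset.univ.erase (∅ : Finset (Fin n)), (1 - δ) ^ S.card
        * ((∑ x : Fin n → ℤˣ, f x * ∏ i ∈ S, ((x i : ℤ) : ℝ)) / (2 : ℝ) ^ n) ^ 2 →
      0 < σ →
      ∃ j : Fin n, (σ / (4 * (d : ℝ))) ^ (C * Real.log (1 / δ)) ≤
        (∑ x : Fin n → ℤˣ,
          ((f (Function.update x j 1) - f (Function.update x j (-1))) / 2) ^ 2)
            / (2 : ℝ) ^ n :=
  Pool.Agent.H889R3.SA.mainA Pool.Agent.H889R3.SA.taskA1 Pool.Agent.H889R3.SA.taskA3
    Pool.Agent.H784R3.SA.taskB3 Pool.Agent.H889R3.SA.allG Pool.Agent.H889R3.SA.taskH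
    Pool.Agent.H889R3.SA.allI

end Pool.Agent.Results.MP_cf5f8b_an.NoiseStable
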